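import Pool.Agent.Helper65.CS.Goals

/-!
# MP_34c247_lc, project CS: packet CS-CWB (the number of the codes)
-/

set_option autoImplicit false

namespace Pool.Agent.Helper94.CS

open Pool.Agent.Helper78.DT Pool.Agent.Helper65.CS
open scoped Classical

theorem card_vr {V : Type} [DecidableEq V] {T B : Tm V} {z : V → Bool} (h : Sat T z) (hB : B ⊆ T) :
    (vr B).card = B.card := by
  unfold vr
  refine Finset.card_image_of_injOn ?_
  intro p hp q hq hpq
  have h1 := h p (hB hp)
  have h2 := h q (hB hq)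
  have h3 : p.2 = q.2 := by rw [← h1, ← h2, hpq]
  exact Prod.ext hpq h3

theorem half_sum (u N : ℕ) :
    ∑ j ∈ Finset.range (N + 1), (if 1 ≤ j ∧ j ≤ u then ((1 : ℝ) / 2) ^ j else 0) ≤ 1 - (1 / 2) ^ N := by
  induction N with
  | zero => simp
  | succ N ih =>
    rw [Finset.sum_range_succ]
    have h : (if 1 ≤ N + 1 ∧ N + 1 ≤ u then ((1 : ℝ) / 2) ^ (N + 1) else 0) ≤ (1 / 2) ^ (N + 1) := by
      split_ifs
      · exact le_rfl
      · positivity
    have e : ((1 : ℝ) / 2) ^ N = (1 / 2) ^ (N + 1) + (1 / 2) ^ (N + 1) := by rw [pow_succ]; ring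
    linarith

theorem term_le {w u j : ℕ} (_h1 : 1 ≤ j) (h2 : j ≤ u + 1) {g : ℝ} (hg : 0 ≤ g) {k : ℕ} (hk : k ≤ w) :
    ((k.choose j : ℕ) : ℝ) * (2 ^ j * ((4 * (w : ℝ)) ^ (u + 1 - j) * g)) ≤
      (4 * (w : ℝ)) ^ (u + 1) * g * (1 / 2) ^ j := by
  have e1 : ((k.choose j : ℕ) : ℝ) ≤ (w : ℝ) ^ j := by
    have : k.choose j ≤ w ^ j := (Nat.choose_le_pow k j).trans (Nat.pow_le_pow_left hk j)
    exact_mod_cast this
  have e2 : (4 * (w : ℝ)) ^ (u + 1) = (4 * (w : ℝ)) ^ (u + 1 - j) * (4 * (w : ℝ)) ^ j := by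
    rw [← pow_add, Nat.sub_add_cancel h2]
  have e3 : (4 * (w : ℝ)) ^ j * (1 / 2) ^ j = (w : ℝ) ^ j * 2 ^ j := by
    rw [← mul_pow, ← mul_pow]
    congr 1
    ring
  calc ((k.choose j : ℕ) : ℝ) * (2 ^ j * ((4 * (w : ℝ)) ^ (u + 1 - j) * g))
      ≤ (w : ℝ) ^ j * (2 ^ j * ((4 * (w : ℝ)) ^ (u + 1 - j) * g)) :=
        mul_le_mul_of_nonneg_right e1 (by positivity)
    _ = (4 * (w : ℝ)) ^ (u + 1 - j) * ((w : ℝ) ^ j * 2 ^ j) * g := by ring
    _ = (4 * (w : ℝ)) ^ (u + 1 - j) * ((4 * (w : ℝ)) ^ j * (1 / 2) ^ j) * g := by rw [e3]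
    _ = (4 * (w : ℝ)) ^ (u + 1) * g * (1 / 2) ^ j := by rw [e2]; ring

theorem cwb : CwbStmt := by
  intro V _ G f w
  induction f with
  | nil =>
    intro z u A g hw hg h
    cases u with
    | zero =>
      rw [cw, pow_zero, one_mul]
      exact h A (by simp)
    | succ u =>
      rw [cw]
      positivity
  | cons e f ih =>
    intro z u A g hw hg h
    have hw' : Wid w f := fun e' he' => hw e' (List.mem_cons_of_mem _ he')
    have he : e.1.card ≤ w := hw e List.mem_cons_self
    cases u with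
    | zero =>
      rw [cw, pow_zero, one_mul]
      exact h A (by simp)
    | succ u =>
      rw [cw]
      by_cases hs : Sat e.1 z
      · rw [if_pos hs]
        set F : ℕ → ℝ := fun j => if 1 ≤ j ∧ j ≤ u + 1 then 2 ^ j * ((4 * (w : ℝ)) ^ (u + 1 - j) * g) else 0 with hF
        have step1 : ∀ B ∈ e.1.powerset, ∑ D ∈ B.powerset,
            (if B.Nonempty ∧ B.card ≤ u + 1 ∧ Disjoint (vr B) A then
              cw G f (flp D z) (u + 1 - B.card) (A ∪ vr B) else 0) ≤ F B.card := by
          intro B hB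
          have hB' : B ⊆ e.1 := Finset.mem_powerset.mp hB
          by_cases hc : B.Nonempty ∧ B.card ≤ u + 1 ∧ Disjoint (vr B) A
          · have h1 : 1 ≤ B.card := Finset.card_pos.mpr hc.1
            have h2 : B.card ≤ u + 1 := hc.2.1
            have hcard : (A ∪ vr B).card = A.card + B.card := by
              rw [Finset.card_union_of_disjoint hc.2.2.symm, card_vr hs hB']
            have h3 : ∀ D ∈ B.powerset, (if B.Nonempty ∧ B.card ≤ u + 1 ∧ Disjoint (vr B) A then
              cw G f (flp D z) (u + 1 - B.card) (A ∪ vr B) else 0) ≤ (4 * (w : ℝ)) ^ (u + 1 - B.card) * g := by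
              intro D _
              rw [if_pos hc]
              refine ih (flp D z) (u + 1 - B.card) (A ∪ vr B) g hw' hg ?_
              intro A' hA'
              refine h A' ?_
              rw [hA', hcard]
              omega
            refine (Finset.sum_le_card_nsmul _ _ _ h3).trans ?_
            rw [Finset.card_powerset, nsmul_eq_mul, hF]
            simp only
            rw [if_pos ⟨h1, h2⟩]
            push_cast
            exact le_rfl
          · have h3 : ∀ D ∈ B.powerset, (if B.Nonempty ∧ B.card ≤ u + 1 ∧ Disjoint (vr B) A then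
              cw G f (flp D z) (u + 1 - B.card) (A ∪ vr B) else 0) = 0 := by
              intro D _
              rw [if_neg hc]
            rw [Finset.sum_eq_zero h3, hF]
            simp only
            split_ifs
            · positivity
            · exact le_rfl
        refine (Finset.sum_le_sum step1).trans ?_
        rw [Finset.sum_powerset_apply_card]
        have step2 : ∀ j ∈ Finset.range (e.1.card + 1), (e.1.card.choose j) • F j ≤
            (4 * (w : ℝ)) ^ (u + 1) * g * (if 1 ≤ j ∧ j ≤ u + 1 then ((1 : ℝ) / 2) ^ j else 0) := by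
          intro j _
          rw [nsmul_eq_mul, hF]
          simp only
          by_cases hj : 1 ≤ j ∧ j ≤ u + 1
          · rw [if_pos hj, if_pos hj]
            exact term_le hj.1 hj.2 hg he
          · rw [if_neg hj, if_neg hj, mul_zero, mul_zero]
        refine (Finset.sum_le_sum step2).trans ?_
        rw [← Finset.mul_sum]
        have h4 := half_sum (u + 1) e.1.card
        have h5 : 0 ≤ ((1 : ℝ) / 2) ^ e.1.card := by positivity
        have h6 : (0 : ℝ) ≤ (4 * (w : ℝ)) ^ (u + 1) * g := by positivity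
        calc (4 * (w : ℝ)) ^ (u + 1) * g *
              ∑ j ∈ Finset.range (e.1.card + 1), (if 1 ≤ j ∧ j ≤ u + 1 then ((1 : ℝ) / 2) ^ j else 0)
            ≤ (4 * (w : ℝ)) ^ (u + 1) * g * 1 := mul_le_mul_of_nonneg_left (by linarith) h6
          _ = _ := mul_one _
      · rw [if_neg hs]
        exact ih z (u + 1) A g hw' hg h

end Pool.Agent.Helper94.CS
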