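import Pool.Agent.Helper65.CS.Goals3

/-!
# MP_34c247_lc, project CS: packet CS-MLV (the runs of a machine as a decision list given as data)
-/

set_option autoImplicit false

namespace Pool.Agent.Helper94.CS.MLV

open Pool.Agent.Helper81.CC Pool.Agent.Helper78.DT Pool.Agent.Helper65.CS

/-- the term is satisfied -/
def SatL {n : ℕ} (r : Fin n → Bool) (e : List (ℕ × Bool) × Bool) : Prop :=
  ∀ p ∈ e.1, (if h : p.1 < n then r ⟨p.1, h⟩ else false) = p.2

theorem val_none {n : ℕ} (r : Fin n → Bool) (F G : DList) (h : ∀ e ∈ F, ¬ SatL r e) :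
    DList.val r (F ++ G) = DList.val r G := by
  induction F with
  | nil => rfl
  | cons e F ih =>
    have h1 : ¬ ∀ p ∈ e.1, (if h : p.1 < n then r ⟨p.1, h⟩ else false) = p.2 := h e List.mem_cons_self
    rw [List.cons_append, DList.val, if_neg h1]
    exact ih fun e' he' => h e' (List.mem_cons_of_mem _ he')

theorem val_some {n : ℕ} (r : Fin n → Bool) (F G : DList) (v : Bool) (h : ∀ e ∈ F, SatL r e → e.2 = v)
    (hex : ∃ e ∈ F, SatL r e) : DList.val r (F ++ G) = v := by
  induction F with
  | nil =>
    obtain ⟨e, he, _⟩ := hex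
    exact absurd he List.not_mem_nil
  | cons e F ih =>
    rw [List.cons_append, DList.val]
    by_cases h1 : ∀ p ∈ e.1, (if h : p.1 < n then r ⟨p.1, h⟩ else false) = p.2
    · rw [if_pos h1]
      exact h e List.mem_cons_self h1
    · rw [if_neg h1]
      refine ih (fun e' he' => h e' (List.mem_cons_of_mem _ he')) ?_
      obtain ⟨e', he', hs⟩ := hex
      rcases List.mem_cons.mp he' with rfl | h2
      · exact absurd hs h1
      · exact ⟨e', h2, hs⟩

section
variable {α : Type} [ToData α] (A : Machine α) (x : α) (i : ℕ)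

theorem mem_hst {H : List (List Bool)} {a : List Bool} (h : a ∈ hst A x i H) :
    ∃ a' ∈ H, (3 ≤ A.act (x, i, a') ∧ ∃ c, a = a' ++ [c]) ∨ (A.act (x, i, a') < 3 ∧ a = a') := by
  unfold hst at h
  rw [List.mem_flatMap] at h
  obtain ⟨a', ha', h⟩ := h
  refine ⟨a', ha', ?_⟩
  by_cases h3 : 3 ≤ A.act (x, i, a')
  · rw [if_pos h3] at h
    left
    refine ⟨h3, ?_⟩
    rcases List.mem_cons.mp h with rfl | h
    · exact ⟨false, rfl⟩
    · rcases List.mem_cons.mp h with rfl | h
      · exact ⟨true, rfl⟩
      · exact absurd h List.not_mem_nil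
  · rw [if_neg h3] at h
    right
    exact ⟨by omega, List.mem_singleton.mp h⟩

theorem iter_hist (k : ℕ) : ∀ a ∈ (hst A x i)^[k] [[]],
    (∀ j < a.length, 3 ≤ A.act (x, i, a.take j)) ∧ (a.length = k ∨ A.act (x, i, a) < 3) := by
  induction k with
  | zero =>
    intro a ha
    rw [Function.iterate_zero, id_eq] at ha
    rw [List.mem_singleton.mp ha]
    exact ⟨fun j hj => absurd hj (Nat.not_lt_zero j), Or.inl rfl⟩
  | succ k ih =>
    intro a ha
    rw [Function.iterate_succ_apply'] at ha
    obtain ⟨a', ha', h⟩ := mem_hst A x i ha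
    obtain ⟨h1, h2⟩ := ih a' ha'
    rcases h with ⟨h3, c, rfl⟩ | ⟨h3, rfl⟩
    · constructor
      · intro j hj
        rw [List.length_append, List.length_singleton] at hj
        rw [List.take_append_of_le_length (by omega)]
        rcases Nat.lt_or_ge j a'.length with h4 | h4
        · exact h1 j h4
        · rw [List.take_of_length_le h4]; exact h3
      · left
        rw [List.length_append, List.length_singleton]
        rcases h2 with h2 | h2
        · rw [h2]
        · omega
    · exact ⟨h1, Or.inr h3⟩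

theorem iter_stp (b : ℕ → Bool) (k : ℕ) : (stp A x i b)^[k] [] ∈ (hst A x i)^[k] [[]] := by
  induction k with
  | zero => exact List.mem_singleton.mpr rfl
  | succ k ih =>
    rw [Function.iterate_succ_apply', Function.iterate_succ_apply']
    generalize (Pool.Agent.Helper78.DT.stp A x i b)^[k] [] = a at ih ⊢
    rw [hst, List.mem_flatMap]
    refine ⟨a, ih, ?_⟩
    rw [Pool.Agent.Helper78.DT.stp]
    by_cases h : 3 ≤ A.act (x, i, a)
    · rw [if_pos h, if_pos h]
      cases b (A.act (x, i, a) - 3)
      · exact List.mem_cons_self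
      · exact List.mem_cons_of_mem _ List.mem_cons_self
    · rw [if_neg h, if_neg h]
      exact List.mem_singleton.mpr rfl

end

theorem mlv (hHis : HisStmt) : MlvStmt := by
  intro α _ A x r
  have hends : ∀ i a v, A.Ends x r i a v ↔ (a = hist A x i (A.coin r) ∧ A.act (x, i, a) = v) := by
    intro i a v
    have h1 := (hHis α A x i).2 (A.coin r) a
    constructor
    · rintro ⟨h2, h3, h4⟩
      exact ⟨h1.mp ⟨h2, by rw [h3]; exact h4⟩, h3⟩
    · rintro ⟨h2, h3⟩
      obtain ⟨h4, h5⟩ := h1.mpr h2
      exact ⟨h4, h3, by rw [← h3]; exact h5⟩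
  have hlt : ∀ i, A.act (x, i, hist A x i (A.coin r)) < 3 := fun i =>
    (((hHis α A x i).2 (A.coin r) _).mpr rfl).2
  -- the leaves
  have hleaf : ∀ i, ∀ a ∈ lvs A x i, (∀ j < a.length, 3 ≤ A.act (x, i, a.take j)) ∧ A.act (x, i, a) < 3 := by
    intro i a ha
    obtain ⟨h1, h2⟩ := iter_hist A x i (A.w x) a ha
    refine ⟨h1, ?_⟩
    rcases h2 with h2 | h2
    · have := (hHis α A x i).1 a h1
      omega
    · exact h2
  have hmem : ∀ i, hist A x i (A.coin r) ∈ lvs A x i := fun i => iter_stp A x i (A.coin r) (A.w x)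
  -- the terms
  have hsat : ∀ i, ∀ a ∈ lvs A x i, ∀ v : Bool,
      SatL r (trm A x i a, v) ↔ a = hist A x i (A.coin r) := by
    intro i a ha v
    obtain ⟨h1, h2⟩ := hleaf i a ha
    rw [← (hHis α A x i).2 (A.coin r) a]
    unfold SatL trm
    constructor
    · intro h
      refine ⟨fun k hk => ⟨h1 k hk, ?_⟩, h2⟩
      have h3 := h (A.act (x, i, a.take k) - 3, a.getD k false)
        (List.mem_map.mpr ⟨k, List.mem_range.mpr hk, rfl⟩)
      unfold Machine.coin
      rw [List.getD_eq_getElem _ _ hk] at h3
      exact h3.symm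
    · rintro ⟨h, -⟩ p hp
      obtain ⟨k, hk, rfl⟩ := List.mem_map.mp hp
      rw [List.mem_range] at hk
      have h3 := (h k hk).2
      unfold Machine.coin at h3
      simp only
      rw [List.getD_eq_getElem _ _ hk]
      exact h3.symm
  -- the value
  have hval : ∀ l : List ℕ, DList.val r (l.flatMap fun i =>
      ((lvs A x i).filter fun a => decide (A.act (x, i, a) ≠ 0)).map fun a =>
        (trm A x i a, decide (A.act (x, i, a) = 2))) =
      (match l.find? fun i => decide (A.act (x, i, hist A x i (A.coin r)) ≠ 0) with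
        | some i => decide (A.act (x, i, hist A x i (A.coin r)) = 2)
        | none => false) := by
    intro l
    induction l with
    | nil => rfl
    | cons i l ih =>
      rw [List.flatMap_cons]
      by_cases h0 : A.act (x, i, hist A x i (A.coin r)) = 0
      · rw [val_none, ih, List.find?_cons_of_neg (by simp [h0])]
        intro e he
        obtain ⟨a, ha, rfl⟩ := List.mem_map.mp he
        obtain ⟨ha1, ha2⟩ := List.mem_filter.mp ha
        rw [hsat i a ha1]
        rintro rfl
        rw [decide_eq_true_eq] at ha2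
        exact ha2 h0
      · rw [val_some r _ _ (decide (A.act (x, i, hist A x i (A.coin r)) = 2)),
          List.find?_cons_of_pos (by simp [h0])]
        · intro e he hs
          obtain ⟨a, ha, rfl⟩ := List.mem_map.mp he
          obtain ⟨ha1, ha2⟩ := List.mem_filter.mp ha
          rw [hsat i a ha1] at hs
          subst hs
          rfl
        · refine ⟨_, List.mem_map.mpr ⟨hist A x i (A.coin r), List.mem_filter.mpr ⟨hmem i, ?_⟩, rfl⟩, ?_⟩
          · rw [decide_eq_true_eq]; exact h0
          · rw [hsat i _ (hmem i)]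
  unfold mdl
  rw [hval]
  cases hf : (List.range (A.T x)).find? (fun i => decide (A.act (x, i, hist A x i (A.coin r)) ≠ 0)) with
  | none =>
    simp only [Bool.false_eq_true, false_iff]
    rintro ⟨i, hi, ⟨a, ha⟩, -⟩
    rw [List.find?_eq_none] at hf
    apply hf i (List.mem_range.mpr hi)
    rw [hends] at ha
    rw [decide_eq_true_eq, ← ha.1, ha.2]
    decide
  | some i =>
    rw [List.find?_range_eq_some] at hf
    obtain ⟨h1, h2, h3⟩ := hf
    rw [List.mem_range] at h2
    rw [decide_eq_true_eq] at h1
    simp only [decide_eq_true_eq]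
    have h3' : ∀ j < i, A.act (x, j, hist A x j (A.coin r)) = 0 := by
      intro j hj
      have := h3 j hj
      simpa using this
    constructor
    · intro h4
      refine ⟨i, h2, ⟨_, (hends i _ 2).mpr ⟨rfl, h4⟩⟩, ?_⟩
      intro j hj
      exact ⟨_, (hends j _ 0).mpr ⟨rfl, h3' j hj⟩⟩
    · rintro ⟨i', hi', ⟨a, ha⟩, h5⟩
      rw [hends] at ha
      rcases lt_trichotomy i i' with h6 | h6 | h6
      · obtain ⟨a', ha'⟩ := h5 i h6
        rw [hends] at ha'
        exact absurd (ha'.1 ▸ ha'.2) h1
      · subst h6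
        rw [← ha.1]; exact ha.2
      · have := h3' i' h6
        rw [← ha.1, ha.2] at this
        exact absurd this (by decide)

end Pool.Agent.Helper94.CS.MLV

namespace Pool.Agent.Helper94.CS

/-- (MLV) -/
theorem mlv (h : Pool.Agent.Helper78.DT.HisStmt) : Pool.Agent.Helper65.CS.MlvStmt := MLV.mlv h

end Pool.Agent.Helper94.CS
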